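import Pool.Agent.Lib.CL88.Glue

open AlgebraicGeometry Pool.Agent.Lib.CL88

/-- Every pair `(γ, m / 2)` with `γ / 2 + 2 < m / 2 < γ` is the pair of the Clifford index and the
rank two Clifford index of a smooth irreducible projective curve of genus at least four. -/
theorem Pool.Agent.Results.MP_eeb174_ag.Curves.result (γ : ℕ) (m : ℤ)
    (h1 : (γ : ℚ) / 2 + 2 < (m : ℚ) / 2) (h2 : (m : ℚ) / 2 < γ) :
    ∃ (C : Scheme.{0}) (s : C ⟶ Spec (.of ℂ)), IsCurve s ∧ 4 ≤ genus s ∧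
      IsLeast (cliffSet s) (γ : ℤ) ∧ IsLeast (cliffTwoSet s) ((m : ℚ) / 2) := by
  have h3 : (γ : ℤ) + 4 < m := by exact_mod_cast (show (γ : ℚ) + 4 < m by linarith)
  have h4 : m < 2 * (γ : ℤ) := by exact_mod_cast (show (m : ℚ) < 2 * γ by linarith)
  obtain ⟨x, e, he, hx⟩ : ∃ x e : ℤ, (e = 0 ∨ e = 1) ∧ m + 1 - γ = 2 * x + e :=
    ⟨(m + 1 - γ) / 2, (m + 1 - γ) % 2, by omega, by omega⟩
  obtain ⟨K, _, _, _, _, _, g, h5, hg, h6⟩ := Pool.Agent.Lib.MP_eeb174_ag.exists_pair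
    (x := x) (y := m + 4 - 3 * x) (e := e) ⟨by omega, he, by omega⟩
  obtain ⟨C, s, hC, ⟨D⟩⟩ := exists_curve K
  rw [show x + (m + 4 - 3 * x) - 1 - e - 2 = γ by omega, show 3 * x + (m + 4 - 3 * x) - 4 = m by
    omega, ← D.cliffSet_eq hg, ← D.cliffTwoSet_eq hg] at h6
  exact ⟨C, s, hC, D.genus_eq hg ▸ Int.ofNat_le.2 h5, h6⟩
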